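import Mathlib
import Pool.Agent.Q90.Scaled

/-!
# Ideals of stable normed algebras need not be stable

A normed algebra is a complex algebra with a submultiplicative norm, possibly without unit and not
necessarily complete (Mathlib's `NonUnitalNormedRing` with a compatible `NormedSpace ℂ`).
-/

set_option autoImplicit false

namespace Pool.Agent.Results.MP_3ea013_an.UnstableIdeals

variable {A : Type} [NonUnitalNormedRing A]

/-- Left stability of the subset `I` of a normed algebra (an ideal, or the whole algebra), with the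
restricted norm: for `a ∈ I` and `M > 0`, if `‖ab‖ ≤ M ‖b‖` for all `b ∈ I` then `‖a‖ ≤ M`. -/
def LeftStable (I : Set A) : Prop :=
  ∀ a ∈ I, ∀ M : ℝ, 0 < M → (∀ b ∈ I, ‖a * b‖ ≤ M * ‖b‖) → ‖a‖ ≤ M

/-- Right stability of the subset `I` with the restricted norm. -/
def RightStable (I : Set A) : Prop :=
  ∀ a ∈ I, ∀ M : ℝ, 0 < M → (∀ b ∈ I, ‖b * a‖ ≤ M * ‖b‖) → ‖a‖ ≤ M

/-- The normed algebra `A` is stable: it is left and right stable. -/
def Stable (A : Type) [NonUnitalNormedRing A] : Prop :=
  LeftStable (Set.univ : Set A) ∧ RightStable (Set.univ : Set A)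

/-- `I` is a two-sided ideal of the complex algebra `A`. -/
def IsIdeal [NormedSpace ℂ A] (I : Submodule ℂ A) : Prop :=
  ∀ x ∈ I, ∀ a : A, a * x ∈ I ∧ x * a ∈ I

/-- The ideal `I` of `A` is essential: only `0` annihilates it, on the left or on the right. -/
def Essential [NormedSpace ℂ A] (I : Submodule ℂ A) : Prop :=
  (∀ a : A, (∀ x ∈ I, a * x = 0) → a = 0) ∧ (∀ a : A, (∀ x ∈ I, x * a = 0) → a = 0)

theorem stable_of_unital (A : Type) [NormedRing A] [NormOneClass A] : Stable A := by
  constructor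
  · intro a _ M _ h
    simpa using h 1 (Set.mem_univ _)
  · intro a _ M _ h
    simpa using h 1 (Set.mem_univ _)

open WithLp in
/-- The second part of the theorem below. -/
theorem general (B : Type) [NonUnitalNormedRing B] [NormedSpace ℂ B] [IsScalarTower ℂ B B]
    [SMulCommClass ℂ B B] [Nontrivial B] (K : ℝ) (hK : 1 < K) :
    ∃ (A : Type) (_ : NormedRing A) (_ : NormedAlgebra ℂ A) (ι : B →ₙₐ[ℂ] A) (I : Submodule ℂ A),
      ‖(1 : A)‖ = 1 ∧ Stable A ∧ (∀ b, ‖ι b‖ = K * ‖b‖) ∧
      (I : Set A) = Set.range ι ∧ IsIdeal I ∧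
      (∀ a : A, ∃ c : ℂ, a - algebraMap ℂ A c ∈ I) ∧ (1 : A) ∉ I ∧
      (∀ a ∈ I, ∀ b ∈ I, ‖a * b‖ ≤ ‖a‖ / K * ‖b‖ ∧ ‖b * a‖ ≤ ‖a‖ / K * ‖b‖) ∧
      ¬ LeftStable (I : Set A) ∧ ¬ RightStable (I : Set A) ∧
      (CompleteSpace B → CompleteSpace A) ∧
      ((∀ x y : B, x * y = y * x) → ∀ x y : A, x * y = y * x) ∧
      ((∀ x : B, (∀ y, x * y = 0) → x = 0) → (∀ x : B, (∀ y, y * x = 0) → x = 0) →
        (¬ ∃ e : B, ∀ x, e * x = x) → (¬ ∃ e : B, ∀ x, x * e = x) → Essential I) := by
  let k : {K : ℝ // 1 ≤ K} := ⟨K, hK.le⟩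
  have hK0 : 0 < K := one_pos.trans hK
  let S := Q90.Scaled k B
  let A := WithLp 1 (Unitization ℂ S)
  have h1 : ‖(1 : A)‖ = 1 := by
    rw [unitization_norm_def]
    change ‖(((1 : Unitization ℂ S).fst))‖ + ‖(((1 : Unitization ℂ S).snd))‖ = 1
    simp
  let j : S →ₙₐ[ℂ] A :=
    { toFun := fun b => toLp 1 (Unitization.inr b)
      map_smul' := fun c b => by
        apply (WithLp.ofLp_injective 1)
        exact Unitization.inr_smul ℂ c b
      map_zero' := by
        apply (WithLp.ofLp_injective 1)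
        exact Unitization.inr_zero ℂ
      map_add' := fun a b => by
        apply (WithLp.ofLp_injective 1)
        exact Unitization.inr_add ℂ a b
      map_mul' := fun a b => by
        apply (WithLp.ofLp_injective 1)
        exact Unitization.inr_mul ℂ a b }
  let ι : B →ₙₐ[ℂ] A :=
    { toFun := fun b => j b
      map_smul' := fun c b => j.map_smul c b
      map_zero' := j.map_zero
      map_add' := fun a b => j.map_add a b
      map_mul' := fun a b => j.map_mul a b }
  have hι : ∀ b, ‖ι b‖ = K * ‖b‖ := fun b => unitization_norm_inr (𝕜 := ℂ) (A := S) b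
  let I : Submodule ℂ A := LinearMap.range (ι : B →ₗ[ℂ] A)
  have hI : (I : Set A) = Set.range ι := rfl
  have hmem : ∀ x : A, x ∈ I ↔ ((ofLp x).fst) = 0 := by
    intro x
    constructor
    · rintro ⟨b, rfl⟩
      exact Unitization.fst_inr ℂ (A := S) b
    · intro hx
      refine ⟨((ofLp x).snd), ?_⟩
      apply (WithLp.ofLp_injective 1)
      exact Unitization.ext hx.symm rfl
  have hbd : ∀ a ∈ I, ∀ b ∈ I, ‖a * b‖ ≤ ‖a‖ / K * ‖b‖ ∧ ‖b * a‖ ≤ ‖a‖ / K * ‖b‖ := by
    rintro _ ⟨a, rfl⟩ _ ⟨b, rfl⟩
    have e1 : ‖ι a * ι b‖ = K * ‖a * b‖ := by rw [← map_mul, hι]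
    have e2 : ‖ι b * ι a‖ = K * ‖b * a‖ := by rw [← map_mul, hι]
    have e3 : ‖ι a‖ / K * ‖ι b‖ = K * (‖a‖ * ‖b‖) := by
      rw [hι, hι]
      field_simp
    constructor
    · change ‖ι a * ι b‖ ≤ ‖ι a‖ / K * ‖ι b‖
      rw [e1, e3]
      exact mul_le_mul_of_nonneg_left (norm_mul_le a b) hK0.le
    · change ‖ι b * ι a‖ ≤ ‖ι a‖ / K * ‖ι b‖
      rw [e2, e3, mul_comm ‖a‖]
      exact mul_le_mul_of_nonneg_left (norm_mul_le b a) hK0.le
  obtain ⟨b0, hb0⟩ := exists_ne (0 : B)
  have hn : 0 < ‖ι b0‖ := by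
    rw [hι]
    exact mul_pos hK0 (norm_pos_iff.2 hb0)
  have hlt : ‖ι b0‖ / K < ‖ι b0‖ := div_lt_self hn hK
  have hmem0 : ι b0 ∈ I := ⟨b0, rfl⟩
  refine ⟨A, inferInstance, inferInstance, ι, I, h1, ?_, hι, hI, ?_, ?_, ?_, hbd, ?_, ?_, ?_, ?_, ?_⟩
  · have : NormOneClass A := ⟨h1⟩
    exact stable_of_unital A
  · intro x hx a
    rw [hmem] at hx
    rw [hmem, hmem]
    constructor
    · change ((ofLp a * ofLp x).fst) = 0
      rw [Unitization.fst_mul, hx, mul_zero]
    · change ((ofLp x * ofLp a).fst) = 0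
      rw [Unitization.fst_mul, hx, zero_mul]
  · intro a
    refine ⟨((ofLp a).fst), ?_⟩
    rw [hmem]
    change ((ofLp a - algebraMap ℂ (Unitization ℂ S) ((ofLp a).fst)).fst) = 0
    rw [sub_eq_add_neg, Unitization.fst_add, Unitization.fst_neg, Unitization.algebraMap_eq_inl,
      Unitization.fst_inl, add_neg_cancel]
  · rw [hmem]
    change ¬ ((1 : Unitization ℂ S).fst) = 0
    simp
  · intro h
    exact absurd (h (ι b0) hmem0 (‖ι b0‖ / K) (div_pos hn hK0) fun b hb => (hbd _ hmem0 b hb).1)
      (not_le.2 hlt)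
  · intro h
    exact absurd (h (ι b0) hmem0 (‖ι b0‖ / K) (div_pos hn hK0) fun b hb => (hbd _ hmem0 b hb).2)
      (not_le.2 hlt)
  · intro hB
    infer_instance
  · intro hcomm x y
    apply (WithLp.ofLp_injective 1)
    change ofLp x * ofLp y = ofLp y * ofLp x
    refine Unitization.ext ?_ ?_
    · rw [Unitization.fst_mul, Unitization.fst_mul, mul_comm]
    · rw [Unitization.snd_mul, Unitization.snd_mul]
      have := hcomm (((ofLp x).snd)) (((ofLp y).snd))
      have h2 : (((ofLp x).snd) : S) * ((ofLp y).snd) =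
        ((ofLp y).snd) * ((ofLp x).snd) := this
      rw [h2]
      abel
  · intro hl hr hel her
    constructor
    · intro a ha
      by_cases hf : ((ofLp a).fst) = 0
      · have h3 : a ∈ I := (hmem a).2 hf
        obtain ⟨b, rfl⟩ := h3
        have h4 : b = 0 := hl b fun y => by
          have h5 := ha (ι y) ⟨y, rfl⟩
          change ι b * ι y = 0 at h5
          rw [← map_mul, ← norm_eq_zero, hι] at h5
          rcases mul_eq_zero.1 h5 with h6 | h6
          · exact absurd h6 hK0.ne'
          · exact norm_eq_zero.1 h6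
        rw [h4]
        exact map_zero _
      · exfalso
        apply hel
        set c := ((ofLp a).fst) with hc
        refine ⟨-(c⁻¹ • (show B from ((ofLp a).snd))), fun x => ?_⟩
        have h5 := ha (ι x) ⟨x, rfl⟩
        have h6 : ((ofLp a * Unitization.inr (show S from x)).snd) = 0 := by
          have := congrArg (fun z : A => ((ofLp z).snd)) h5
          exact this
        rw [Unitization.snd_mul, Unitization.snd_inr, Unitization.fst_inr, zero_smul,
          add_zero] at h6
        have h7 : c • x + (show B from ((ofLp a).snd)) * x = 0 := h6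
        have h8 : (show B from ((ofLp a).snd)) * x = -(c • x) :=
          eq_neg_of_add_eq_zero_right h7
        rw [neg_mul, smul_mul_assoc, h8, smul_neg, neg_neg, smul_smul, inv_mul_cancel₀ hf, one_smul]
    · intro a ha
      by_cases hf : ((ofLp a).fst) = 0
      · have h3 : a ∈ I := (hmem a).2 hf
        obtain ⟨b, rfl⟩ := h3
        have h4 : b = 0 := hr b fun y => by
          have h5 := ha (ι y) ⟨y, rfl⟩
          change ι y * ι b = 0 at h5
          rw [← map_mul, ← norm_eq_zero, hι] at h5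
          rcases mul_eq_zero.1 h5 with h6 | h6
          · exact absurd h6 hK0.ne'
          · exact norm_eq_zero.1 h6
        rw [h4]
        exact map_zero _
      · exfalso
        apply her
        set c := ((ofLp a).fst) with hc
        refine ⟨-(c⁻¹ • (show B from ((ofLp a).snd))), fun x => ?_⟩
        have h5 := ha (ι x) ⟨x, rfl⟩
        have h6 : ((Unitization.inr (show S from x) * ofLp a).snd) = 0 := by
          have := congrArg (fun z : A => ((ofLp z).snd)) h5
          exact this
        rw [Unitization.snd_mul, Unitization.snd_inr, Unitization.fst_inr, zero_smul,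
          zero_add] at h6
        have h7 : c • x + x * (show B from ((ofLp a).snd)) = 0 := h6
        have h8 : x * (show B from ((ofLp a).snd)) = -(c • x) :=
          eq_neg_of_add_eq_zero_right h7
        rw [mul_neg, mul_smul_comm, h8, smul_neg, neg_neg, smul_smul, inv_mul_cancel₀ hf, one_smul]

/-- **Ideals of stable normed algebras need not be stable** (negative answer to Q1).

(1) It is not true that every two-sided ideal of every stable normed algebra, with the restricted
norm, is stable (in fact both left stability and right stability fail, also if the algebra is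
unital, commutative and complete and the ideal is closed, of codimension one and essential; this
follows from (2) with `B` the algebra `c_0`).

(2) Every normed algebra is an unstable ideal after its norm is multiplied by any `K > 1`. Let
`B ≠ 0` be a complex normed algebra and `K > 1`. There are a unital complex normed algebra `A` with
`‖1‖ = 1`, which is stable, and an algebra homomorphism `ι : B → A` with `‖ι b‖ = K ‖b‖` for all
`b`, whose range `I` is a two-sided ideal of `A` of codimension one, such that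
`‖ab‖ ≤ (‖a‖ / K) ‖b‖` and `‖ba‖ ≤ (‖a‖ / K) ‖b‖` for all `a, b ∈ I`, and `I` with the restricted
norm is neither left stable nor right stable. Moreover `A` is complete if `B` is complete, `A` is
commutative if `B` is commutative, and `I` is essential in `A` if `B` is faithful and has neither
a left nor a right unit element. -/
theorem result :
    (¬ ∀ (A : Type) [NonUnitalNormedRing A] [NormedSpace ℂ A] [IsScalarTower ℂ A A]
        [SMulCommClass ℂ A A], Stable A → ∀ I : Submodule ℂ A, IsIdeal I →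
          LeftStable (I : Set A) ∧ RightStable (I : Set A)) ∧
    ∀ (B : Type) [NonUnitalNormedRing B] [NormedSpace ℂ B] [IsScalarTower ℂ B B]
      [SMulCommClass ℂ B B] [Nontrivial B] (K : ℝ), 1 < K →
      ∃ (A : Type) (_ : NormedRing A) (_ : NormedAlgebra ℂ A) (ι : B →ₙₐ[ℂ] A) (I : Submodule ℂ A),
        ‖(1 : A)‖ = 1 ∧ Stable A ∧ (∀ b, ‖ι b‖ = K * ‖b‖) ∧
        (I : Set A) = Set.range ι ∧ IsIdeal I ∧
        (∀ a : A, ∃ c : ℂ, a - algebraMap ℂ A c ∈ I) ∧ (1 : A) ∉ I ∧
        (∀ a ∈ I, ∀ b ∈ I, ‖a * b‖ ≤ ‖a‖ / K * ‖b‖ ∧ ‖b * a‖ ≤ ‖a‖ / K * ‖b‖) ∧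
        ¬ LeftStable (I : Set A) ∧ ¬ RightStable (I : Set A) ∧
        (CompleteSpace B → CompleteSpace A) ∧
        ((∀ x y : B, x * y = y * x) → ∀ x y : A, x * y = y * x) ∧
        ((∀ x : B, (∀ y, x * y = 0) → x = 0) → (∀ x : B, (∀ y, y * x = 0) → x = 0) →
          (¬ ∃ e : B, ∀ x, e * x = x) → (¬ ∃ e : B, ∀ x, x * e = x) → Essential I) := by
  refine ⟨fun h => ?_, fun B _ _ _ _ _ K hK => general B K hK⟩
  obtain ⟨A, _, _, ι, I, -, h2, -, -, h5, -, -, -, h9, -⟩ := general ℂ 2 one_lt_two
  exact h9 (h A h2 I h5).1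

end Pool.Agent.Results.MP_3ea013_an.UnstableIdeals
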